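import Mathlib

namespace Pool.Agent.Results.MP_2eb2b4_co.Counter

open Classical

/-- `m` belongs to `A = {2^i 3^j}`. -/
def P (m : ℕ) : Prop := ∃ i j : ℕ, m = 2 ^ i * 3 ^ j

/-- `A_n`: the `n` smallest elements of `A` (`Nat.nth P 0 = a_1`). -/
noncomputable def A (n : ℕ) : Finset ℕ := (Finset.range n).image (Nat.nth P)

/-- `H ⊆ A_n` meets every triple `{x, 2x, 3x} ⊆ A_n`. -/
def Hits (n : ℕ) (H : Finset ℕ) : Prop :=
  H ⊆ A n ∧ ∀ x, x ∈ A n → 2 * x ∈ A n → 3 * x ∈ A n → (x ∈ H ∨ 2 * x ∈ H ∨ 3 * x ∈ H)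

/-- The L-hitting number `f_n`. -/
noncomputable def f (n : ℕ) : ℕ := sInf {k | ∃ H : Finset ℕ, Hits n H ∧ H.card = k}

/-- `B_{n,k}`. -/
noncomputable def B (n k : ℕ) : Finset ℕ :=
  (A n).filter fun m => ∃ i j : ℕ, m = 2 ^ i * 3 ^ j ∧ (i : ℤ) - j ≡ k [ZMOD 3]

/-- `B~_{n,k}`. -/
noncomputable def Bt (n k : ℕ) : Finset ℕ :=
  (A n).filter fun m => ∃ i : ℕ, 1 ≤ i ∧ m = 2 ^ i ∧ i ≡ k [MOD 3] ∧ 2 ^ (i - 1) * 3 ∉ A n

/-- `h_n = min_k (|B_{n,k}| - |B~_{n,k}|)`. -/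
noncomputable def h (n : ℕ) : ℤ :=
  min (((B n 0).card : ℤ) - (Bt n 0).card)
    (min (((B n 1).card : ℤ) - (Bt n 1).card) (((B n 2).card : ℤ) - (Bt n 2).card))

def L : Finset ℕ :=
  {1, 2, 3, 4, 6, 8, 9, 12, 16, 18, 24, 27, 32, 36, 48, 54, 64, 72, 81, 96, 108, 128, 144, 162,
    192, 216, 243, 256, 288, 324, 384, 432, 486, 512, 576, 648, 729, 768, 864, 972, 1024, 1152,
    1296, 1458, 1536}

def H0 : Finset ℕ := {3, 4, 18, 24, 32, 81, 108, 144, 192, 384, 486, 512, 648, 864}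

lemma bound {m i j : ℕ} (hm : m < 1537) (e : m = 2 ^ i * 3 ^ j) : i < 11 ∧ j < 7 := by
  have h2 : 0 < 2 ^ i := by positivity
  have h3 : 0 < 3 ^ j := by positivity
  constructor
  · by_contra hi
    have : 2 ^ 11 ≤ 2 ^ i := Nat.pow_le_pow_right (by norm_num) (by omega)
    nlinarith
  · by_contra hj
    have : 3 ^ 7 ≤ 3 ^ j := Nat.pow_le_pow_right (by norm_num) (by omega)
    nlinarith

lemma L_lt : ∀ m ∈ L, m < 1537 := by decide +kernel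

lemma L_P : ∀ m ∈ L, ∃ i ∈ Finset.range 11, ∃ j ∈ Finset.range 7, m = 2 ^ i * 3 ^ j := by
  decide +kernel

lemma P_L : ∀ i ∈ Finset.range 11, ∀ j ∈ Finset.range 7,
    2 ^ i * 3 ^ j < 1537 → 2 ^ i * 3 ^ j ∈ L := by decide +kernel

lemma mem_L (m : ℕ) : m ∈ L ↔ P m ∧ m < 1537 := by
  constructor
  · intro hm
    obtain ⟨i, -, j, -, e⟩ := L_P m hm
    exact ⟨⟨i, j, e⟩, L_lt m hm⟩
  · rintro ⟨⟨i, j, e⟩, hm⟩
    obtain ⟨hi, hj⟩ := bound hm e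
    subst e
    exact P_L i (Finset.mem_range.2 hi) j (Finset.mem_range.2 hj) hm

lemma P_inf : (setOf P).Infinite := by
  refine Set.infinite_of_injective_forall_mem (f := fun i : ℕ => 2 ^ i) ?_ ?_
  · exact Nat.pow_right_injective (by norm_num)
  · intro i
    exact ⟨i, 0, by simp⟩

lemma count_eq : Nat.count P 1537 = 45 := by
  rw [Nat.count_eq_card_filter_range]
  have : (Finset.range 1537).filter P = L := by
    ext m
    rw [mem_L, Finset.mem_filter, Finset.mem_range]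
    tauto
  rw [this]
  decide +kernel

lemma A45 : A 45 = L := by
  ext m
  rw [mem_L, A, Finset.mem_image]
  constructor
  · rintro ⟨k, hk, rfl⟩
    refine ⟨Nat.nth_mem_of_infinite P_inf k, ?_⟩
    apply Nat.nth_lt_of_lt_count
    rw [count_eq]
    exact Finset.mem_range.1 hk
  · rintro ⟨hp, hm⟩
    refine ⟨Nat.count P m, ?_, Nat.nth_count hp⟩
    rw [Finset.mem_range, ← count_eq]
    exact Nat.count_strict_mono hp hm

lemma hits : Hits 45 H0 := by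
  unfold Hits
  rw [A45]
  refine ⟨by decide +kernel, ?_⟩
  have : ∀ x ∈ L, 2 * x ∈ L → 3 * x ∈ L → (x ∈ H0 ∨ 2 * x ∈ H0 ∨ 3 * x ∈ H0) := by
    decide +kernel
  exact this

lemma f_le : f 45 ≤ 14 := by
  apply Nat.sInf_le
  exact ⟨H0, hits, by decide +kernel⟩

lemma B_eq (k : ℕ) : B 45 k = L.filter fun m =>
    ∃ i ∈ Finset.range 11, ∃ j ∈ Finset.range 7, m = 2 ^ i * 3 ^ j ∧
      ((i : ℤ) - j) % 3 = (k : ℤ) % 3 := by
  ext m
  rw [B, A45, Finset.mem_filter, Finset.mem_filter]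
  refine and_congr_right fun hm => ?_
  constructor
  · rintro ⟨i, j, e, hk⟩
    obtain ⟨hi, hj⟩ := bound (L_lt m hm) e
    exact ⟨i, Finset.mem_range.2 hi, j, Finset.mem_range.2 hj, e, hk⟩
  · rintro ⟨i, -, j, -, e, hk⟩
    exact ⟨i, j, e, hk⟩

lemma Bt_eq (k : ℕ) : Bt 45 k = L.filter fun m =>
    ∃ i ∈ Finset.range 11, 1 ≤ i ∧ m = 2 ^ i ∧ i % 3 = k % 3 ∧ 2 ^ (i - 1) * 3 ∉ L := by
  ext m
  rw [Bt, A45, Finset.mem_filter, Finset.mem_filter]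
  refine and_congr_right fun hm => ?_
  constructor
  · rintro ⟨i, h1, e, hk, hn⟩
    obtain ⟨hi, -⟩ := bound (i := i) (j := 0) (L_lt m hm) (by rw [e]; simp)
    exact ⟨i, Finset.mem_range.2 hi, h1, e, hk, hn⟩
  · rintro ⟨i, -, h1, e, hk, hn⟩
    exact ⟨i, h1, e, hk, hn⟩

lemma h_eq : h 45 = 15 := by
  unfold h
  simp only [B_eq, Bt_eq]
  decide +kernel

theorem result : f 45 ≤ 14 ∧ h 45 = 15 ∧ ¬ ∀ n, 1 ≤ n → (f n : ℤ) = h n := by
  refine ⟨f_le, h_eq, fun hall => ?_⟩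
  have h1 := hall 45 (by norm_num)
  have h2 := f_le
  rw [h_eq] at h1
  omega

end Pool.Agent.Results.MP_2eb2b4_co.Counter
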